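import Pool.Agent.E8helper67.CFN.Fold

/-!
Divisors of the partial products of a basic sequence which are congruent to one modulo
the product of numerator and denominator of a word.
-/

set_option autoImplicit false

open Filter Set
open scoped Topology

namespace Pool.Agent.E8helper67.CFN

open Pool.Agent.R357.CF

/-- the partial products -/
def BB (q : ℕ → ℕ) (n : ℕ) : ℕ := ∏ i ∈ Finset.range n, q i

lemma BB_dvd (q : ℕ → ℕ) {m n : ℕ} (h : m ≤ n) : BB q m ∣ BB q n := by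
  unfold BB
  exact Finset.prod_dvd_prod_of_subset _ _ _ (Finset.range_subset_range.2 h)

lemma BB_succ (q : ℕ → ℕ) (n : ℕ) : BB q (n + 1) = BB q n * q n := by
  unfold BB
  rw [Finset.prod_range_succ]

/-- a prime which divides infinitely many terms: its powers divide the partial products -/
lemma pow_dvd {q : ℕ → ℕ} {p : ℕ} (h : ∀ n, ∃ m, n ≤ m ∧ p ∣ q m) (a : ℕ) : ∃ j, p ^ a ∣ BB q j := by
  induction a with
  | zero => exact ⟨0, by simp⟩
  | succ a ih =>
    obtain ⟨j, hj⟩ := ih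
    obtain ⟨m, hm, hp⟩ := h j
    refine ⟨m + 1, ?_⟩
    rw [BB_succ, pow_succ]
    exact Nat.mul_dvd_mul (hj.trans (BB_dvd q hm)) hp

/-- from a large divisor congruent to one -/
lemma to_k {m M : ℕ} (hm : 1 ≤ m) (h1 : M ≡ 1 [MOD m]) (h2 : 1 + 2 * m ≤ M) :
    ∃ k, 2 ≤ k ∧ M = 1 + m * k := by
  have h3 : m ∣ M - 1 := (Nat.modEq_iff_dvd' (by omega)).1 h1.symm
  obtain ⟨k, hk⟩ := h3
  refine ⟨k, ?_, by omega⟩
  by_contra hc
  have : m * k ≤ m * 1 := Nat.mul_le_mul_left _ (by omega)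
  omega

lemma case_one {q : ℕ → ℕ} {p : ℕ} (hp : p.Prime) (h : ∀ n, ∃ m, n ≤ m ∧ p ∣ q m) {m : ℕ} (hm : 1 ≤ m)
    (hpm : ¬ p ∣ m) : ∃ j k, 2 ≤ k ∧ 1 + m * k ∣ BB q j := by
  have hcop : Nat.Coprime p m := (Nat.Prime.coprime_iff_not_dvd hp).2 hpm
  have h1 : (p ^ m.totient) ^ (1 + 2 * m) ≡ 1 [MOD m] := by
    have := (Nat.ModEq.pow_totient hcop).pow (1 + 2 * m)
    rwa [one_pow] at this
  have h2 : 1 + 2 * m ≤ (p ^ m.totient) ^ (1 + 2 * m) := by
    have ht : 1 ≤ m.totient := Nat.totient_pos.2 (by omega)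
    have h3 : 2 ≤ p ^ m.totient := by
      calc 2 ≤ p := hp.two_le
        _ = p ^ 1 := (pow_one p).symm
        _ ≤ p ^ m.totient := Nat.pow_le_pow_right hp.pos ht
    calc 1 + 2 * m ≤ 2 ^ (1 + 2 * m) := Nat.lt_two_pow_self.le
      _ ≤ (p ^ m.totient) ^ (1 + 2 * m) := Nat.pow_le_pow_left h3 _
  obtain ⟨k, hk1, hk2⟩ := to_k hm h1 h2
  obtain ⟨j, hj⟩ := pow_dvd h (m.totient * (1 + 2 * m))
  refine ⟨j, k, hk1, ?_⟩
  rw [← hk2, ← pow_mul]
  exact hj

lemma case_two {q : ℕ → ℕ} (hq : ∀ n, 2 ≤ q n)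
    (h : ∀ p, p.Prime → ∃ n, ∀ m, n ≤ m → ¬ p ∣ q m) {m : ℕ} (hm : 1 ≤ m) :
    ∃ j k, 2 ≤ k ∧ 1 + m * k ∣ BB q j := by
  -- eventually coprime to `m`
  obtain ⟨n0, hn0⟩ : ∃ n0, ∀ n, n0 ≤ n → Nat.Coprime (q n) m := by
    have h1 : ∀ p ∈ m.primeFactors, ∃ n, ∀ l, n ≤ l → ¬ p ∣ q l := fun p hp =>
      h p (Nat.prime_of_mem_primeFactors hp)
    choose! f hf using h1
    refine ⟨m.primeFactors.sup f, fun n hn => ?_⟩
    apply Nat.Coprime.symm
    rw [Nat.coprime_iff_gcd_eq_one]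
    by_contra hc
    obtain ⟨p, hp, hd⟩ := Nat.exists_prime_and_dvd hc
    have hpm : p ∈ m.primeFactors := by
      rw [Nat.mem_primeFactors]
      exact ⟨hp, hd.trans (Nat.gcd_dvd_left _ _), by omega⟩
    exact hf p hpm n ((Finset.le_sup hpm).trans hn) (hd.trans (Nat.gcd_dvd_right _ _))
  haveI : NeZero m := ⟨by omega⟩
  set f : ℕ → ZMod m := fun t => ((BB (fun i => q (n0 + i)) t : ℕ) : ZMod m) with hf
  obtain ⟨y, hy⟩ := Finite.exists_infinite_fiber f
  have hinf : (f ⁻¹' {y}).Infinite := Set.infinite_coe_iff.1 hy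
  obtain ⟨i, hi⟩ := hinf.nonempty
  obtain ⟨j, hj, hij⟩ := hinf.exists_gt (i + (1 + 2 * m))
  obtain ⟨l, rfl⟩ : ∃ l, j = i + l := ⟨j - i, by omega⟩
  set M := ∏ x ∈ Finset.range l, q (n0 + (i + x)) with hM
  have hsplit : BB (fun i => q (n0 + i)) (i + l) = BB (fun i => q (n0 + i)) i * M := by
    unfold BB
    rw [Finset.prod_range_add]
  have h1 : M ≡ 1 [MOD m] := by
    have e : f (i + l) = f i := by
      have a1 : f (i + l) = y := hj
      have a2 : f i = y := hi
      rw [a1, a2]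
    rw [hf] at e
    simp only at e
    rw [hsplit, Nat.cast_mul] at e
    have hu : IsUnit ((BB (fun i => q (n0 + i)) i : ℕ) : ZMod m) := by
      rw [ZMod.isUnit_iff_coprime]
      unfold BB
      apply Nat.Coprime.prod_left
      intro x _
      exact hn0 _ (by omega)
    have e2 : ((M : ℕ) : ZMod m) = ((1 : ℕ) : ZMod m) := by
      rw [Nat.cast_one]
      exact hu.mul_eq_left.1 e
    exact (ZMod.natCast_eq_natCast_iff _ _ _).1 e2
  have h2 : 1 + 2 * m ≤ M := by
    calc 1 + 2 * m ≤ 2 ^ (1 + 2 * m) := Nat.lt_two_pow_self.le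
      _ ≤ 2 ^ l := Nat.pow_le_pow_right (by norm_num) (by omega)
      _ = ∏ x ∈ Finset.range l, 2 := by simp
      _ ≤ M := Finset.prod_le_prod' fun x _ => hq _
  obtain ⟨k, hk1, hk2⟩ := to_k hm h1 h2
  refine ⟨n0 + (i + l), k, hk1, ?_⟩
  rw [← hk2]
  have h3 : BB q (n0 + (i + l)) = BB q n0 * (BB (fun i => q (n0 + i)) (i + l)) := by
    unfold BB
    rw [Finset.prod_range_add]
  rw [h3, hsplit, ← mul_assoc]
  exact Dvd.intro_left _ rfl

/-- two more digits make a prime avoid numerator and denominator -/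
lemma adjust {p : ℕ} (hp : p.Prime) (w : List ℕ) :
    ∃ d e, 1 ≤ d ∧ 2 ≤ e ∧ ¬ p ∣ Pn (w ++ [d] ++ [e]) ∧ ¬ p ∣ Q (w ++ [d] ++ [e]) := by
  haveI : Fact p.Prime := ⟨hp⟩
  have hp2 := hp.two_le
  have eP : ∀ d e, Pn (w ++ [d] ++ [e]) = e * (d * Pn w + Pn' w) + Pn w := by
    intro d e
    unfold Pn Pn'
    rw [cq_append, cq_append]
  have eQ : ∀ d e, Q (w ++ [d] ++ [e]) = e * (d * Q w + Q' w) + Q w := by
    intro d e
    rw [Q_append, Q_append, Q'_append]
  have hdet : ((Pn' w : ℤ)) * Q w - Pn w * Q' w = 1 ∨ ((Pn' w : ℤ)) * Q w - Pn w * Q' w = -1 := by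
    have h := det (w := w)
    have h' : ((((Pn' w : ℤ)) * Q w - Pn w * Q' w : ℤ) : ℝ) = (-1) ^ w.length := by
      push_cast
      exact h
    rcases neg_one_pow_eq_or ℝ w.length with e | e
    · left; rw [e] at h'; exact_mod_cast h'
    · right; rw [e] at h'; exact_mod_cast h'
  set x : ZMod p := (Pn w : ZMod p) with hx
  set x' : ZMod p := (Pn' w : ZMod p) with hx'
  set y : ZMod p := (Q w : ZMod p) with hy
  set y' : ZMod p := (Q' w : ZMod p) with hy'
  have hdet' : x' * y - x * y' ≠ 0 := by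
    have key : x' * y - x * y' = ((((Pn' w : ℤ)) * Q w - Pn w * Q' w : ℤ) : ZMod p) := by
      push_cast
      rfl
    rw [key]
    rcases hdet with e | e
    · rw [e]; simp
    · rw [e]; simp
  have conv : ∀ d e : ℕ, (¬ p ∣ Pn (w ++ [d] ++ [e]) ∧ ¬ p ∣ Q (w ++ [d] ++ [e])) ↔
      ((e : ZMod p) * (d * x + x') + x ≠ 0 ∧ (e : ZMod p) * (d * y + y') + y ≠ 0) := by
    intro d e
    rw [eP, eQ]
    rw [← ZMod.natCast_eq_zero_iff, ← ZMod.natCast_eq_zero_iff]
    push_cast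
    rfl
  by_cases hx0 : x = 0
  · have hy0 : y ≠ 0 := by
      intro h; apply hdet'; rw [hx0, h]; ring
    have hx'0 : x' ≠ 0 := by
      intro h; apply hdet'; rw [hx0, h]; ring
    by_cases hy'0 : y' = 0
    · refine ⟨p, p + 1, by omega, by omega, (conv _ _).2 ?_⟩
      push_cast
      rw [CharP.cast_eq_zero (ZMod p) p, hx0, hy'0]
      simp [hx'0, hy0]
    · refine ⟨p - 1, p + 1, by omega, by omega, (conv _ _).2 ?_⟩
      rw [Nat.cast_sub (by omega)]
      push_cast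
      rw [CharP.cast_eq_zero (ZMod p) p, hx0]
      have : (0 + 1 : ZMod p) * ((0 - 1) * y + y') + y = y' := by ring
      rw [this]
      simp [hx'0, hy'0]
  · by_cases hy0 : y = 0
    · have hy'0 : y' ≠ 0 := by
        intro h; apply hdet'; rw [hy0, h]; ring
      by_cases hx'0 : x' = 0
      · refine ⟨p, p + 1, by omega, by omega, (conv _ _).2 ?_⟩
        push_cast
        rw [CharP.cast_eq_zero (ZMod p) p, hy0, hx'0]
        simp [hy'0, hx0]
      · refine ⟨p - 1, p + 1, by omega, by omega, (conv _ _).2 ?_⟩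
        rw [Nat.cast_sub (by omega)]
        push_cast
        rw [CharP.cast_eq_zero (ZMod p) p, hy0]
        have : (0 + 1 : ZMod p) * ((0 - 1) * x + x') + x = x' := by ring
        rw [this]
        simp [hx'0, hy'0]
    · refine ⟨1, p, le_rfl, by omega, (conv _ _).2 ?_⟩
      push_cast
      rw [CharP.cast_eq_zero (ZMod p) p]
      simp [hx0, hy0]

/-- the arithmetic step: after a word `w`, at most three digits lead to a word of odd length with
last digit at least two for which the folding works -/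
lemma arith {q : ℕ → ℕ} (hq : ∀ n, 2 ≤ q n) {w : List ℕ} (hw : Good w) (hw0 : w ≠ []) :
    ∃ A : List ℕ, ∃ e : ℕ, Good A ∧ A.length ≤ 2 ∧ 2 ≤ e ∧ Odd (w ++ A ++ [e]).length ∧
      ∃ j k, 2 ≤ k ∧ 1 + Pn (w ++ A ++ [e]) * Q (w ++ A ++ [e]) * k ∣ BB q j := by
  -- fix the parity first
  obtain ⟨A0, hA0, hA1, hA2⟩ : ∃ A0 : List ℕ, Good A0 ∧ A0.length ≤ 1 ∧ Odd (w ++ A0).length := by
    rcases Nat.even_or_odd w.length with h | h
    · refine ⟨[1], good_single le_rfl, by simp, ?_⟩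
      rw [List.length_append, List.length_singleton]
      exact h.add_one
    · exact ⟨[], good_nil, by simp, by simpa using h⟩
  have hpos : ∀ d e, 1 ≤ d → 1 ≤ e → 1 ≤ Pn ((w ++ A0) ++ [d] ++ [e]) * Q ((w ++ A0) ++ [d] ++ [e]) := by
    intro d e hd he
    have hg : Good ((w ++ A0) ++ [d] ++ [e]) :=
      ((hw.append hA0).append (good_single hd)).append (good_single he)
    obtain ⟨v, t, hvt⟩ : ∃ v t, (w ++ A0) ++ [d] ++ [e] = v :: t := by
      cases w with
      | nil => exact absurd rfl hw0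
      | cons a b => exact ⟨a, _, rfl⟩
    rw [hvt] at hg ⊢
    exact Nat.mul_pos (Pn_pos hg) (Q_pos hg)
  have hodd : ∀ d e, Odd ((w ++ A0) ++ [d] ++ [e]).length := by
    intro d e
    rw [List.length_append, List.length_append, List.length_singleton, List.length_singleton, add_assoc]
    exact hA2.add_even (by norm_num)
  by_cases h : ∃ p, p.Prime ∧ ∀ n, ∃ m, n ≤ m ∧ p ∣ q m
  · obtain ⟨p, hp, hpq⟩ := h
    obtain ⟨d, e, hd, he, h1, h2⟩ := adjust hp (w ++ A0)
    refine ⟨A0 ++ [d], e, hA0.append (good_single hd), by simp; omega, he, ?_, ?_⟩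
    · rw [← List.append_assoc]; exact hodd d e
    · rw [← List.append_assoc]
      apply case_one hp hpq (hpos d e hd (by omega))
      intro hc
      rcases (Nat.Prime.dvd_mul hp).1 hc with hc | hc
      · exact h1 hc
      · exact h2 hc
  · push Not at h
    refine ⟨A0 ++ [1], 2, hA0.append (good_single le_rfl), by simp; omega, le_rfl, ?_, ?_⟩
    · rw [← List.append_assoc]; exact hodd 1 2
    · rw [← List.append_assoc]
      exact case_two hq h (hpos 1 2 le_rfl (by omega))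

end Pool.Agent.E8helper67.CFN
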