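import Pool.Agent.E8helper67.CFN.Words

/-!
Defects of the prefixes of a folded word.
-/

set_option autoImplicit false

open Filter Set
open scoped Topology

namespace Pool.Agent.E8helper67.CFN

open Pool.Agent.R357.CF

lemma est1 {μ : ℝ} (h0 : 0 ≤ μ) (h1 : μ ≤ 1) {c : List ℕ} {a : ℕ → ℕ} {ε C : ℝ}
    (ha : ∀ m, dft μ c (pre a m) ≤ ε * m + C) (W A : List ℕ) (hA : A.length ≤ 2) (m n : ℕ) :
    dft μ c ((W ++ pre a m ++ A).take n) ≤
      dft μ c (W.take n) + ε * (min (n - W.length) m : ℕ) + C + 2 * c.length + 2 := by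
  rw [List.take_append, List.take_append, take_pre]
  have h2 := dft_append μ c (List.take n W ++ pre a (min (n - W.length) m))
    (List.take (n - (W ++ pre a m).length) A)
  have h3 := dft_append μ c (List.take n W) (pre a (min (n - W.length) m))
  have h4 := ha (min (n - W.length) m)
  have h5 := dft_le h0 h1 c (List.take (n - (W ++ pre a m).length) A)
  have h6 : ((List.take (n - (W ++ pre a m).length) A).length : ℝ) ≤ 2 := by
    have : (List.take (n - (W ++ pre a m).length) A).length ≤ 2 := by
      rw [List.length_take]; omega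
    exact_mod_cast this
  linarith

lemma est_rev {μ : ℝ} (h0 : 0 ≤ μ) (h1 : μ ≤ 1) {c : List ℕ} (hc : c ≠ []) {V : List ℕ} {E : ℝ}
    (hE : ∀ i, dft μ c.reverse (V.take i) ≤ E) (j : ℕ) :
    dft μ c (V.tail.reverse.take j) ≤ 2 * E + 2 + 3 * c.length := by
  have hE0 : 0 ≤ E := (dft_nonneg _ _ _).trans (hE 0)
  rw [List.take_reverse, dft_reverse μ hc]
  cases V with
  | nil =>
    simp only [List.tail_nil, List.drop_nil]
    have := dft_le h0 h1 c.reverse []
    simp only [List.length_nil, Nat.cast_zero] at this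
    have hc0 : (0:ℝ) ≤ c.length := by positivity
    linarith
  | cons v Y =>
    simp only [List.tail_cons]
    set i := Y.length - j with hi
    have h2 := dft_right μ c.reverse (Y.take i) (Y.drop i)
    rw [List.take_append_drop] at h2
    have h3 : ∀ l, dft μ c.reverse (Y.take l) ≤ E + 1 + c.length := by
      intro l
      have h4 := dft_right μ c.reverse [v] (Y.take l)
      have h5 : [v] ++ Y.take l = (v :: Y).take (l + 1) := rfl
      rw [h5] at h4
      have h6 := hE (l + 1)
      have h7 := dft_le h0 h1 c.reverse [v]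
      simp only [List.length_cons, List.length_nil, zero_add, Nat.cast_one] at h7
      rw [List.length_reverse] at h4
      linarith
    have h4 := h3 i
    have h5 := h3 Y.length
    rw [List.take_length] at h5
    rw [List.length_reverse] at h2
    linarith

lemma est2 {μ : ℝ} (h0 : 0 ≤ μ) (h1 : μ ≤ 1) {c : List ℕ} (hc : c ≠ []) {V : List ℕ} {E : ℝ}
    (hE : ∀ i, dft μ c (V.take i) ≤ E) (hE' : ∀ i, dft μ c.reverse (V.take i) ≤ E)
    {B1 B2 : List ℕ} (hB1 : B1.length = 4) (hB2 : B2.length = 1) (n : ℕ) :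
    dft μ c ((V ++ (B1 ++ (V.tail.reverse ++ B2))).take n) ≤ 3 * E + 7 + 6 * c.length := by
  rw [List.take_append, List.take_append, List.take_append]
  set n1 := n - V.length
  set n2 := n1 - B1.length
  set n3 := n2 - V.tail.reverse.length
  have a1 := dft_append μ c (V.take n) (B1.take n1 ++ (V.tail.reverse.take n2 ++ B2.take n3))
  have a2 := dft_append μ c (B1.take n1) (V.tail.reverse.take n2 ++ B2.take n3)
  have a3 := dft_append μ c (V.tail.reverse.take n2) (B2.take n3)
  have b1 := hE n
  have b2 := dft_le h0 h1 c (B1.take n1)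
  have b2' : ((B1.take n1).length : ℝ) ≤ 4 := by
    have : (B1.take n1).length ≤ 4 := by rw [List.length_take]; omega
    exact_mod_cast this
  have b3 := est_rev h0 h1 hc hE' n2
  have b4 := dft_le h0 h1 c (B2.take n3)
  have b4' : ((B2.take n3).length : ℝ) ≤ 1 := by
    have : (B2.take n3).length ≤ 1 := by rw [List.length_take]; omega
    exact_mod_cast this
  linarith

/-- all prefixes of a folded word -/
lemma est3 {μ : ℝ} (h0 : 0 ≤ μ) (h1 : μ ≤ 1) {c : List ℕ} (hc : c ≠ []) {a : ℕ → ℕ} {ε C : ℝ}
    (hε : 0 ≤ ε)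
    (ha : ∀ m, dft μ c (pre a m) ≤ ε * m + C) (ha' : ∀ m, dft μ c.reverse (pre a m) ≤ ε * m + C)
    (W A : List ℕ) (hA : A.length ≤ 2) (m : ℕ)
    {B1 B2 : List ℕ} (hB1 : B1.length = 4) (hB2 : B2.length = 1) (n : ℕ) :
    dft μ c (((W ++ pre a m ++ A) ++ (B1 ++ ((W ++ pre a m ++ A).tail.reverse ++ B2))).take n) ≤
      3 * W.length + 3 * ε * m + (3 * C + 13 + 12 * c.length) := by
  have hWl : ∀ (c' : List ℕ) (i : ℕ), dft μ c' (W.take i) ≤ W.length := by
    intro c' i
    refine (dft_le h0 h1 _ _).trans ?_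
    have : (W.take i).length ≤ W.length := by rw [List.length_take]; omega
    exact_mod_cast this
  have hmin : ∀ i : ℕ, ε * ((min (i - W.length) m : ℕ) : ℝ) ≤ ε * m := by
    intro i
    apply mul_le_mul_of_nonneg_left _ hε
    exact_mod_cast min_le_right _ _
  have hE : ∀ i, dft μ c ((W ++ pre a m ++ A).take i) ≤ W.length + ε * m + C + 2 * c.length + 2 := by
    intro i
    have := est1 h0 h1 ha W A hA m i
    linarith [hWl c i, hmin i]
  have hE' : ∀ i, dft μ c.reverse ((W ++ pre a m ++ A).take i) ≤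
      W.length + ε * m + C + 2 * c.length + 2 := by
    intro i
    have := est1 h0 h1 ha' W A hA m i
    rw [List.length_reverse] at this
    linarith [hWl c.reverse i, hmin i]
  have := est2 h0 h1 hc hE hE' hB1 hB2 n
  linarith

end Pool.Agent.E8helper67.CFN
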