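import Pool.Agent.R357.CF.Seq

/-!
The mirror formula and the folding identity.
-/

set_option autoImplicit false

open Filter Set
open scoped Topology

namespace Pool.Agent.E8helper67.CFN

open Pool.Agent.R357.CF

lemma cq_reverse (w : List ℕ) : cq w.reverse = ((cq w).2.2.2, (cq w).2.1, (cq w).2.2.1, (cq w).1) := by
  induction w with
  | nil => simp [cq]
  | cons d w ih =>
    rw [List.reverse_cons, cq_append, ih]
    simp only [cq]

lemma phi_reverse_zero {w : List ℕ} (hw : Good w) : phi w.reverse 0 = (Q' w : ℝ) / Q w := by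
  have hr : Good w.reverse := fun d hd => hw d (List.mem_reverse.1 hd)
  obtain ⟨_, h⟩ := phi_formula hr (z := 0) le_rfl
  rw [h]
  simp only [Q, Q', cq_reverse, mul_zero, add_zero]

/-- the numerator of a word -/
def Pn (w : List ℕ) : ℕ := (cq w).1

/-- the second numerator of a word -/
def Pn' (w : List ℕ) : ℕ := (cq w).2.1

lemma Pn_cons (v : ℕ) (w : List ℕ) : Pn (v :: w) = Q w := rfl

lemma Pn'_cons (v : ℕ) (w : List ℕ) : Pn' (v :: w) = Q' w := rfl

lemma Pn_pos {v : ℕ} {w : List ℕ} (hw : Good (v :: w)) : 1 ≤ Pn (v :: w) := Q_pos hw.cons.2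

/-- the folding identity -/
lemma fold_phi {v : ℕ} {mid : List ℕ} (h : Good (v :: mid)) {e : ℕ} (he : 2 ≤ e)
    (hodd : Odd (v :: mid ++ [e]).length) {k : ℕ} (hk : 2 ≤ k) :
    phi (v :: mid ++ [e] ++ [k - 1, 1, e - 1] ++ mid.reverse) 0 =
      ((Pn (v :: mid ++ [e]) : ℝ) ^ 2 * k) /
        (1 + (Pn (v :: mid ++ [e]) : ℝ) * Q (v :: mid ++ [e]) * k) := by
  have hmid : Good mid := h.cons.2
  have hV : Good (v :: mid ++ [e]) := h.append (good_single (by omega))
  set b := Q mid with hb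
  set b' := Q' mid with hb'
  have hbpos : (0:ℝ) < b := by exact_mod_cast Q_pos hmid
  have hb'0 : (0:ℝ) ≤ b' := by positivity
  have eP : Pn (v :: mid ++ [e]) = e * b + b' := by
    rw [List.cons_append, Pn_cons, Q_append]
  have eP' : Pn' (v :: mid ++ [e]) = b := by
    rw [List.cons_append, Pn'_cons, Q'_append]
  have hdet := det (w := v :: mid ++ [e])
  rw [hodd.neg_one_pow] at hdet
  change (Pn' (v :: mid ++ [e]) : ℝ) * Q (v :: mid ++ [e]) - (Pn (v :: mid ++ [e]) : ℝ) * Q' (v :: mid ++ [e]) = -1 at hdet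
  have hk1 : ((k - 1 : ℕ) : ℝ) = (k:ℝ) - 1 := by
    rw [Nat.cast_sub (by omega)]; norm_num
  have he1 : ((e - 1 : ℕ) : ℝ) = (e:ℝ) - 1 := by
    rw [Nat.cast_sub (by omega)]; norm_num
  have hkR : (2:ℝ) ≤ k := by exact_mod_cast hk
  have heR : (2:ℝ) ≤ e := by exact_mod_cast he
  have hPpos : (0:ℝ) < (e:ℝ) * b + b' := by positivity
  have h1 : (0:ℝ) < ((e:ℝ) - 1) * b + b' := by nlinarith
  -- the inner value
  have hz : phi ([k - 1, 1, e - 1] ++ mid.reverse) 0 =
      ((e:ℝ) * b + b') / (k * ((e:ℝ) * b + b') - b) := by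
    rw [phi_append, phi_reverse_zero hmid]
    simp only [phi]
    rw [hk1, he1, ← hb, ← hb', Nat.cast_one]
    have e1 : (e:ℝ) - 1 + (b':ℝ) / b = (((e:ℝ) - 1) * b + b') / b := by field_simp
    rw [e1, one_div_div]
    have e2 : (1:ℝ) + (b:ℝ) / (((e:ℝ) - 1) * b + b') = ((e:ℝ) * b + b') / (((e:ℝ) - 1) * b + b') := by
      rw [eq_div_iff h1.ne', add_mul, div_mul_cancel₀ _ h1.ne']; ring
    rw [e2, one_div_div]
    have h2 : (0:ℝ) < k * ((e:ℝ) * b + b') - b := by nlinarith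
    have e3 : (k:ℝ) - 1 + (((e:ℝ) - 1) * b + b') / ((e:ℝ) * b + b') =
        (k * ((e:ℝ) * b + b') - b) / ((e:ℝ) * b + b') := by
      rw [eq_div_iff hPpos.ne', add_mul, div_mul_cancel₀ _ hPpos.ne']; ring
    rw [e3, one_div_div]
  have hden : (0:ℝ) < k * ((e:ℝ) * b + b') - b := by nlinarith
  have hz0 : (0:ℝ) ≤ phi ([k - 1, 1, e - 1] ++ mid.reverse) 0 := by
    rw [hz]; positivity
  rw [List.append_assoc, phi_append]
  obtain ⟨hpos, hform⟩ := phi_formula hV hz0
  rw [hform]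
  rw [hz] at hpos ⊢
  change ((Pn (v :: mid ++ [e]) : ℝ) + (Pn' (v :: mid ++ [e]) : ℝ) * _) / _ = _
  set q := (Q (v :: mid ++ [e]) : ℝ) with hq
  set q' := (Q' (v :: mid ++ [e]) : ℝ) with hq'
  rw [eP'] at hdet ⊢
  have eP2 : (Pn (v :: mid ++ [e]) : ℝ) = e * b + b' := by rw [eP]; push_cast; ring
  rw [eP2] at hdet ⊢
  set p := (e:ℝ) * b + b' with hp
  have hq0 : 0 ≤ q := by positivity
  have hD : (0:ℝ) < 1 + p * q * k := by positivity
  have hDen : q + q' * (p / (k * p - b)) = (1 + p * q * k) / (k * p - b) := by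
    rw [eq_div_iff hden.ne', add_mul, mul_assoc, div_mul_cancel₀ _ hden.ne']
    linear_combination -hdet
  have hNum : p + b * (p / (k * p - b)) = (p ^ 2 * k) / (k * p - b) := by
    rw [eq_div_iff hden.ne', add_mul, mul_assoc, div_mul_cancel₀ _ hden.ne']
    ring
  rw [hDen, hNum, div_div_div_cancel_right₀ hden.ne']

/-- a number in the cylinder of `U ++ [K]` is close to the value of `U` -/
lemma near {U : List ℕ} (hU : Good U) {K : ℕ} (hK : 1 ≤ K) {z : ℝ} (hz : z ∈ Ioo (0:ℝ) 1) :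
    |phi (U ++ [K]) z - phi U 0| ≤ 1 / K := by
  rw [phi_append]
  have hK' : (1:ℝ) ≤ K := by exact_mod_cast hK
  have h1 : phi [K] z ∈ Icc (0:ℝ) 1 := phi_mem_Icc (good_single hK) (Ioo_subset_Icc_self hz)
  refine ((phi_abs hU h1 ⟨le_rfl, zero_le_one⟩).2).trans ?_
  have hQ : (1:ℝ) ≤ (Q U : ℝ) ^ 2 := by
    have : (1:ℝ) ≤ Q U := by exact_mod_cast Q_pos hU
    nlinarith
  rw [sub_zero, abs_of_nonneg h1.1]
  have h2 : phi [K] z ≤ 1 / K := by
    simp only [phi]
    apply one_div_le_one_div_of_le (by linarith)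
    linarith [hz.1]
  calc phi [K] z / (Q U : ℝ) ^ 2 ≤ phi [K] z / 1 := by
        apply div_le_div_of_nonneg_left h1.1 (by norm_num) hQ
    _ ≤ 1 / K := by rw [div_one]; exact h2

end Pool.Agent.E8helper67.CFN
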