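import Pool.Agent.R357.CF.Norm
import Pool.Agent.R357.CF.Seq

/-!
Counting blocks in words; the defect of a word; reversal.
-/

set_option autoImplicit false

open Filter Set
open scoped Topology

namespace Pool.Agent.E8helper67.CFN

open Pool.Agent.R357.CF

/-- number of occurrences of the block `c` in the word `W` -/
def occ (c W : List ℕ) : ℕ := ((Finset.range W.length).filter (fun i => c <+: W.drop i)).card

lemma occ_le (c W : List ℕ) : occ c W ≤ W.length := by
  unfold occ
  exact (Finset.card_filter_le _ _).trans (by simp)

lemma occ_sum (c W : List ℕ) : occ c W = ∑ i ∈ Finset.range W.length, if c <+: W.drop i then 1 else 0 := by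
  unfold occ
  rw [Finset.card_filter]

lemma occ_append (c U W : List ℕ) :
    occ c U + occ c W ≤ occ c (U ++ W) ∧ occ c (U ++ W) ≤ occ c U + occ c W + c.length := by
  rw [occ_sum c (U ++ W), List.length_append, Finset.sum_range_add]
  have e1 : ∑ i ∈ Finset.range W.length, (if c <+: (U ++ W).drop (U.length + i) then 1 else 0) = occ c W := by
    rw [occ_sum]
    refine Finset.sum_congr rfl fun i _ => ?_
    rw [List.drop_append, List.drop_eq_nil_of_le (by omega), List.nil_append,
      show U.length + i - U.length = i by omega]
  rw [e1]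
  have h2 : occ c U ≤ ∑ i ∈ Finset.range U.length, (if c <+: (U ++ W).drop i then 1 else 0) := by
    rw [occ_sum]
    refine Finset.sum_le_sum fun i hi => ?_
    have hi' : i < U.length := Finset.mem_range.1 hi
    have e : (U ++ W).drop i = U.drop i ++ W := by
      rw [List.drop_append_of_le_length hi'.le]
    rw [e]
    by_cases h : c <+: U.drop i
    · rw [if_pos h, if_pos (h.trans (List.prefix_append _ _))]
    · rw [if_neg h]; exact Nat.zero_le _
  have h3 : ∑ i ∈ Finset.range U.length, (if c <+: (U ++ W).drop i then 1 else 0) ≤ occ c U + c.length := by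
    rw [← Finset.card_filter]
    unfold occ
    have hsub : (Finset.range U.length).filter (fun i => c <+: (U ++ W).drop i) ⊆
        (Finset.range U.length).filter (fun i => c <+: U.drop i) ∪
          Finset.Ico (U.length - c.length) U.length := by
      intro i hi
      simp only [Finset.mem_union, Finset.mem_filter, Finset.mem_range, Finset.mem_Ico] at hi ⊢
      obtain ⟨h1, h2⟩ := hi
      by_cases h : i + c.length ≤ U.length
      · left
        refine ⟨h1, ?_⟩
        rw [List.drop_append_of_le_length h1.le] at h2
        exact List.prefix_of_prefix_length_le h2 (List.prefix_append _ _) (by rw [List.length_drop]; omega)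
      · right; omega
    refine (Finset.card_le_card hsub).trans ((Finset.card_union_le _ _).trans ?_)
    rw [Nat.card_Ico]
    omega
  omega

lemma prefix_drop_iff {c W : List ℕ} {i : ℕ} (hi : i < W.length) :
    c <+: W.drop i ↔ i + c.length ≤ W.length ∧ (W.drop i).take c.length = c := by
  rw [List.prefix_iff_eq_take]
  constructor
  · intro h
    refine ⟨?_, h.symm⟩
    have := congrArg List.length h
    rw [List.length_take, List.length_drop] at this
    omega
  · rintro ⟨_, h⟩
    exact h.symm

lemma drop_take_reverse {c W : List ℕ} {i : ℕ} (h : i + c.length ≤ W.length) :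
    (W.reverse.drop i).take c.length = ((W.drop (W.length - c.length - i)).take c.length).reverse := by
  rw [List.drop_reverse, List.take_reverse, List.length_take, List.drop_take]
  congr 2
  · omega
  · congr 1; omega

lemma occ_reverse {c : List ℕ} (hc : c ≠ []) (W : List ℕ) : occ c W.reverse = occ c.reverse W := by
  have hc0 : 0 < c.length := List.length_pos_iff.2 hc
  unfold occ
  rw [List.length_reverse]
  refine Finset.card_nbij' (fun i => W.length - c.length - i) (fun i => W.length - c.length - i) ?_ ?_ ?_ ?_
  · intro i hi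
    simp only [Finset.coe_filter, Finset.mem_range, Set.mem_ofPred_eq] at hi ⊢
    obtain ⟨h1, h2⟩ := hi
    rw [prefix_drop_iff (by rw [List.length_reverse]; exact h1), List.length_reverse] at h2
    obtain ⟨h2, h3⟩ := h2
    refine ⟨by omega, ?_⟩
    rw [prefix_drop_iff (by omega), List.length_reverse]
    refine ⟨by omega, ?_⟩
    rw [drop_take_reverse h2] at h3
    rw [← h3, List.reverse_reverse, h3]
  · intro i hi
    simp only [Finset.coe_filter, Finset.mem_range, Set.mem_ofPred_eq] at hi ⊢
    obtain ⟨h1, h2⟩ := hi
    rw [prefix_drop_iff h1, List.length_reverse] at h2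
    obtain ⟨h2, h3⟩ := h2
    refine ⟨by omega, ?_⟩
    rw [prefix_drop_iff (by rw [List.length_reverse]; omega), List.length_reverse]
    refine ⟨by omega, ?_⟩
    rw [drop_take_reverse (by omega)]
    have e : W.length - c.length - (W.length - c.length - i) = i := by omega
    rw [e, h3, List.reverse_reverse]
  · intro i hi
    simp only [Finset.coe_filter, Finset.mem_range, Set.mem_ofPred_eq] at hi ⊢
    obtain ⟨h1, h2⟩ := hi
    rw [prefix_drop_iff (by rw [List.length_reverse]; exact h1), List.length_reverse] at h2
    omega
  · intro i hi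
    simp only [Finset.coe_filter, Finset.mem_range, Set.mem_ofPred_eq] at hi ⊢
    obtain ⟨h1, h2⟩ := hi
    rw [prefix_drop_iff h1, List.length_reverse] at h2
    omega

/-- the defect of a word -/
noncomputable def dft (μ : ℝ) (c W : List ℕ) : ℝ := |(occ c W : ℝ) - μ * W.length|

lemma dft_nonneg (μ : ℝ) (c W : List ℕ) : 0 ≤ dft μ c W := abs_nonneg _

lemma dft_le {μ : ℝ} (h0 : 0 ≤ μ) (h1 : μ ≤ 1) (c W : List ℕ) : dft μ c W ≤ W.length := by
  unfold dft
  have h2 : (occ c W : ℝ) ≤ W.length := by exact_mod_cast occ_le c W
  have h3 : (0:ℝ) ≤ occ c W := by positivity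
  have h4 : μ * W.length ≤ W.length := by nlinarith [show (0:ℝ) ≤ W.length by positivity]
  have h5 : 0 ≤ μ * W.length := by positivity
  rw [abs_le]
  constructor <;> linarith

lemma dft_append (μ : ℝ) (c U W : List ℕ) : dft μ c (U ++ W) ≤ dft μ c U + dft μ c W + c.length := by
  unfold dft
  obtain ⟨h1, h2⟩ := occ_append c U W
  have h1' : (occ c U : ℝ) + occ c W ≤ occ c (U ++ W) := by exact_mod_cast h1
  have h2' : (occ c (U ++ W) : ℝ) ≤ occ c U + occ c W + c.length := by exact_mod_cast h2
  rw [List.length_append]
  push_cast
  have e : (occ c (U ++ W) : ℝ) - μ * (U.length + W.length) =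
      ((occ c U : ℝ) - μ * U.length) + ((occ c W : ℝ) - μ * W.length) +
        ((occ c (U ++ W) : ℝ) - (occ c U + occ c W)) := by ring
  rw [e]
  refine (abs_add_le _ _).trans (add_le_add (abs_add_le _ _) ?_)
  rw [abs_of_nonneg (by linarith)]
  linarith

lemma dft_right (μ : ℝ) (c U W : List ℕ) : dft μ c W ≤ dft μ c (U ++ W) + dft μ c U + c.length := by
  unfold dft
  obtain ⟨h1, h2⟩ := occ_append c U W
  have h1' : (occ c U : ℝ) + occ c W ≤ occ c (U ++ W) := by exact_mod_cast h1
  have h2' : (occ c (U ++ W) : ℝ) ≤ occ c U + occ c W + c.length := by exact_mod_cast h2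
  rw [List.length_append]
  push_cast
  have e : (occ c W : ℝ) - μ * W.length =
      ((occ c (U ++ W) : ℝ) - μ * (U.length + W.length)) - ((occ c U : ℝ) - μ * U.length) -
        ((occ c (U ++ W) : ℝ) - (occ c U + occ c W)) := by ring
  rw [e]
  refine (abs_sub _ _).trans (add_le_add (abs_sub _ _) ?_)
  rw [abs_of_nonneg (by linarith)]
  linarith

lemma dft_reverse (μ : ℝ) {c : List ℕ} (hc : c ≠ []) (W : List ℕ) :
    dft μ c W.reverse = dft μ c.reverse W := by
  unfold dft
  rw [occ_reverse hc, List.length_reverse]

lemma take_pre (a : ℕ → ℕ) (n m : ℕ) : (pre a m).take n = pre a (min n m) := by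
  unfold pre
  rw [← List.map_take, List.take_range]

end Pool.Agent.E8helper67.CFN
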