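import Pool.Agent.R357.CF.Build
import Pool.Agent.E8helper67.CFN.Words
import Pool.Agent.E8helper67.CFN.Fold

/-!
Block frequencies of a continued-fraction normal number.
-/

set_option autoImplicit false

open Filter Set MeasureTheory
open scoped Topology

namespace Pool.Agent.E8helper67.CFN

open Pool.Agent.R357.CF Pool.Agent.W811.Stu Pool.Agent.W174.Stu

/-- number of positions below `N` at which the block `c` starts in the sequence `s` -/
def cntb (s : ℕ → ℕ) (c : List ℕ) (N : ℕ) : ℕ :=
  ((Finset.range N).filter (fun n => pre (sh s n) c.length = c)).card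

lemma drop_pre (s : ℕ → ℕ) (i N : ℕ) : (pre s N).drop i = pre (sh s i) (N - i) := by
  apply List.ext_getElem
  · rw [List.length_drop, pre_length, pre_length]
  · intro n h1 h2
    simp [pre, sh]

lemma occ_pre (s : ℕ → ℕ) (c : List ℕ) (N : ℕ) :
    occ c (pre s N) ≤ cntb s c N ∧ cntb s c N ≤ occ c (pre s N) + c.length := by
  have key : ∀ i, i < N → (c <+: (pre s N).drop i ↔ (i + c.length ≤ N ∧ pre (sh s i) c.length = c)) := by
    intro i hi
    rw [prefix_drop_iff (by rw [pre_length]; exact hi), pre_length, drop_pre, take_pre]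
    constructor
    · rintro ⟨h1, h2⟩
      rw [min_eq_left (by omega)] at h2
      exact ⟨h1, h2⟩
    · rintro ⟨h1, h2⟩
      rw [min_eq_left (by omega)]
      exact ⟨h1, h2⟩
  unfold occ cntb
  rw [pre_length]
  constructor
  · apply Finset.card_le_card
    intro i hi
    simp only [Finset.mem_filter, Finset.mem_range] at hi ⊢
    exact ⟨hi.1, ((key i hi.1).1 hi.2).2⟩
  · have hsub : (Finset.range N).filter (fun n => pre (sh s n) c.length = c) ⊆
        (Finset.range N).filter (fun i => c <+: (pre s N).drop i) ∪ Finset.Ico (N - c.length) N := by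
      intro i hi
      simp only [Finset.mem_union, Finset.mem_filter, Finset.mem_range, Finset.mem_Ico] at hi ⊢
      by_cases h : i + c.length ≤ N
      · left; exact ⟨hi.1, (key i hi.1).2 ⟨h, hi.2⟩⟩
      · right; omega
    refine (Finset.card_le_card hsub).trans ((Finset.card_union_le _ _).trans ?_)
    rw [Nat.card_Ico]
    omega

/-- a word is the beginning of the expansion iff the value lies in the cylinder -/
lemma pre_eq_iff {s : ℕ → ℕ} (hs : ∀ n, 1 ≤ s n) {c : List ℕ} (hc : Good c) :
    pre s c.length = c ↔ ∃ z ∈ Ioo (0:ℝ) 1, X s = phi c z := by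
  constructor
  · intro h
    refine ⟨X (sh s c.length), X_mem (sh_good hs _), ?_⟩
    have := X_pre hs c.length
    rw [h] at this
    exact this
  · rintro ⟨z, hz, h⟩
    induction c generalizing s with
    | nil => rfl
    | cons d c ih =>
      obtain ⟨h1, h2⟩ := hc.cons
      rw [List.length_cons, pre_succ']
      have e1 := X_eq hs
      have m1 := X_mem (sh_good hs 1)
      have m2 := phi_mem h2 hz
      rw [h] at e1
      simp only [phi] at e1
      have hd : (1:ℝ) ≤ d := by exact_mod_cast h1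
      have hs0 : (1:ℝ) ≤ s 0 := by exact_mod_cast hs 0
      have e2 : (d:ℝ) + phi c z = s 0 + X (sh s 1) := by
        have a1 : (0:ℝ) < d + phi c z := by linarith [m2.1]
        have a2 : (0:ℝ) < s 0 + X (sh s 1) := by linarith [m1.1]
        rw [div_eq_div_iff a1.ne' a2.ne'] at e1
        linarith
      have e4 : X (sh s 1) = phi c z := by
        have f1 : Int.fract ((d:ℝ) + phi c z) = phi c z := by
          rw [Int.fract_natCast_add]; exact Int.fract_eq_self.2 ⟨m2.1.le, m2.2⟩
        have f2 : Int.fract ((s 0:ℝ) + X (sh s 1)) = X (sh s 1) := by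
          rw [Int.fract_natCast_add]; exact Int.fract_eq_self.2 ⟨m1.1.le, m1.2⟩
        rw [← f1, e2, f2]
      have e3 : d = s 0 := by
        rw [e4] at e2
        have : (d:ℝ) = s 0 := by linarith
        exact_mod_cast this
      rw [ih (sh_good hs 1) h2 e4, ← e3]

/-- lower and upper end of a cylinder -/
noncomputable def lo (c : List ℕ) : ℝ := min (phi c 0) (phi c 1)

/-- upper end of a cylinder -/
noncomputable def hi (c : List ℕ) : ℝ := max (phi c 0) (phi c 1)

lemma zero_mem_Icc : (0:ℝ) ∈ Icc (0:ℝ) 1 := ⟨le_rfl, zero_le_one⟩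

lemma one_mem_Icc : (1:ℝ) ∈ Icc (0:ℝ) 1 := ⟨zero_le_one, le_rfl⟩

lemma lo_nonneg {c : List ℕ} (hc : Good c) : 0 ≤ lo c :=
  le_min (phi_mem_Icc hc zero_mem_Icc).1 (phi_mem_Icc hc one_mem_Icc).1

lemma hi_le_one {c : List ℕ} (hc : Good c) : hi c ≤ 1 :=
  max_le (phi_mem_Icc hc zero_mem_Icc).2 (phi_mem_Icc hc one_mem_Icc).2

lemma lo_le_hi (c : List ℕ) : lo c ≤ hi c := min_le_max

/-- between the ends -/
lemma cyl_iff {c : List ℕ} (hc : Good c) {y : ℝ} :
    (∃ z ∈ Ioo (0:ℝ) 1, y = phi c z) ↔ lo c < y ∧ y < hi c := by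
  constructor
  · rintro ⟨z, hz, rfl⟩
    have h1 := phi_sign hc (z := z) (z' := 0) hz.1.le le_rfl hz.1
    have h2 := phi_sign hc (z := 1) (z' := z) zero_le_one hz.1.le hz.2
    unfold lo hi
    rcases neg_one_pow_eq_or ℝ c.length with e | e
    · rw [e, one_mul] at h1 h2
      exact ⟨(min_le_left _ _).trans_lt (by linarith), lt_of_lt_of_le (by linarith) (le_max_right _ _)⟩
    · rw [e] at h1 h2
      exact ⟨(min_le_right _ _).trans_lt (by linarith), lt_of_lt_of_le (by linarith) (le_max_left _ _)⟩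
  · rintro ⟨h1, h2⟩
    have hcont := phi_contOn hc
    have h01 : uIcc (0:ℝ) 1 = Icc 0 1 := uIcc_of_le zero_le_one
    have hmem : y ∈ uIcc (phi c 0) (phi c 1) := ⟨h1.le, h2.le⟩
    obtain ⟨ζ, hζ, e⟩ := intermediate_value_uIcc (a := (0:ℝ)) (b := 1) (by rw [h01]; exact hcont) hmem
    rw [h01] at hζ
    refine ⟨ζ, ⟨lt_of_le_of_ne hζ.1 ?_, lt_of_le_of_ne hζ.2 ?_⟩, e.symm⟩
    · rintro rfl
      unfold lo at h1
      unfold hi at h2
      rw [e] at h1 h2
      rcases le_total y (phi c 1) with h | h
      · rw [min_eq_left h] at h1; exact lt_irrefl _ h1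
      · rw [max_eq_left h] at h2; exact lt_irrefl _ h2
    · rintro rfl
      unfold lo at h1
      unfold hi at h2
      rw [e] at h1 h2
      rcases le_total y (phi c 0) with h | h
      · rw [min_eq_right h] at h1; exact lt_irrefl _ h1
      · rw [max_eq_right h] at h2; exact lt_irrefl _ h2

/-- Gauss measure of a cylinder, explicit -/
noncomputable def mu (c : List ℕ) : ℝ := (Real.log (1 + hi c) - Real.log (1 + lo c)) / Real.log 2

lemma mu_abs {c : List ℕ} (hc : Good c) :
    mu c = |Real.log ((1 + phi c 1) / (1 + phi c 0))| / Real.log 2 := by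
  unfold mu
  congr 1
  have h0 := (phi_mem_Icc hc zero_mem_Icc).1
  have h1 := (phi_mem_Icc hc one_mem_Icc).1
  rw [Real.log_div (by linarith) (by linarith)]
  unfold lo hi
  rcases le_total (phi c 0) (phi c 1) with h | h
  · rw [max_eq_right h, min_eq_left h, abs_of_nonneg]
    have := Real.log_le_log (show 0 < 1 + phi c 0 by linarith) (show 1 + phi c 0 ≤ 1 + phi c 1 by linarith)
    linarith
  · rw [max_eq_left h, min_eq_right h, abs_of_nonpos]
    · ring
    · have := Real.log_le_log (show 0 < 1 + phi c 1 by linarith) (show 1 + phi c 1 ≤ 1 + phi c 0 by linarith)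
      linarith

lemma good_reverse {c : List ℕ} (hc : Good c) : Good c.reverse := fun d hd => hc d (List.mem_reverse.1 hd)

lemma ratio {c : List ℕ} (hc : Good c) : (1 + phi c 1) / (1 + phi c 0) =
    (((Q c : ℝ) + Q' c + Pn c + Pn' c) * Q c) / (((Q c : ℝ) + Q' c) * (Q c + Pn c)) := by
  obtain ⟨_, e0⟩ := phi_formula hc (z := 0) le_rfl
  obtain ⟨_, e1⟩ := phi_formula hc (z := 1) zero_le_one
  rw [e0, e1, mul_zero, mul_one, mul_zero, mul_one, add_zero, add_zero]
  change (1 + ((Pn c : ℝ) + Pn' c) / _) / (1 + (Pn c : ℝ) / _) = _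
  have hQ : (0:ℝ) < Q c := by exact_mod_cast Q_pos hc
  have hQ' : (0:ℝ) ≤ Q' c := by positivity
  have hP : (0:ℝ) ≤ Pn c := by positivity
  have a1 : (0:ℝ) < (Q c : ℝ) + Q' c := by linarith
  have a2 : (0:ℝ) < (Q c : ℝ) + Pn c := by linarith
  rw [one_add_div a1.ne', one_add_div hQ.ne', div_div_div_eq]
  congr 1
  ring

lemma mu_reverse {c : List ℕ} (hc : Good c) : mu c.reverse = mu c := by
  rw [mu_abs hc, mu_abs (good_reverse hc), ratio hc, ratio (good_reverse hc)]
  have e1 : Q c.reverse = Q c := by unfold Q; rw [cq_reverse]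
  have e2 : Q' c.reverse = Pn c := by unfold Q' Pn; rw [cq_reverse]
  have e3 : Pn c.reverse = Q' c := by unfold Q' Pn; rw [cq_reverse]
  have e4 : Pn' c.reverse = Pn' c := by unfold Pn'; rw [cq_reverse]
  rw [e1, e2, e3, e4]
  congr 3
  congr 1 <;> ring

lemma mu_nonneg {c : List ℕ} (hc : Good c) : 0 ≤ mu c := by
  rw [mu_abs hc]
  exact div_nonneg (abs_nonneg _) (Real.log_nonneg (by norm_num))

lemma mu_le_one {c : List ℕ} (hc : Good c) : mu c ≤ 1 := by
  unfold mu
  rw [div_le_one (Real.log_pos (by norm_num))]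
  have h1 := Real.log_le_log (show 0 < 1 + hi c by linarith [lo_nonneg hc, lo_le_hi c])
    (show 1 + hi c ≤ 2 by linarith [hi_le_one hc])
  have h2 := Real.log_nonneg (show 1 ≤ 1 + lo c by linarith [lo_nonneg hc])
  linarith

/-- block frequencies of a normal number -/
lemma exists_base : ∃ a : ℕ → ℕ, (∀ n, 1 ≤ a n) ∧ ∀ c, Good c →
    Tendsto (fun N : ℕ => (cntb a c N : ℝ) / N) atTop (𝓝 (mu c)) := by
  obtain ⟨α, hα1, hα2, hα3⟩ := exists_normal
  obtain ⟨ha, -⟩ := dig_props hα1 hα2
  refine ⟨dig α, ha, fun c hc => ?_⟩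
  have hXa : X (dig α) = α := X_dig hα1 hα2
  have h1 := hα3 (hi c) ((lo_nonneg hc).trans (lo_le_hi c)) (hi_le_one hc)
  have h2 := hα3 (lo c) (lo_nonneg hc) ((lo_le_hi c).trans (hi_le_one hc))
  have h3 := h1.sub h2
  rw [← sub_div] at h3
  refine h3.congr fun N => ?_
  rw [← sub_div]
  congr 1
  have hsplit : (Finset.range N).filter (fun n => gauss^[n] α < hi c) =
      (Finset.range N).filter (fun n => gauss^[n] α < lo c) ∪
        (Finset.range N).filter (fun n => pre (sh (dig α) n) c.length = c) := by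
    ext n
    simp only [Finset.mem_union, Finset.mem_filter, Finset.mem_range]
    have hn : gauss^[n] α = X (sh (dig α) n) := by
      conv_lhs => rw [← hXa]
      exact gauss_iter_X ha n
    have hne : gauss^[n] α ≠ lo c := by
      have hirr : Irrational (gauss^[n] α) := (iter_mem hα1 hα2 n).1
      intro h
      apply hirr
      rw [h]
      have hr : ∀ w : List ℕ, ∀ z : ℚ, phi w (z : ℝ) ∈ Set.range ((↑) : ℚ → ℝ) := by
        intro w
        induction w with
        | nil => intro z; exact ⟨z, rfl⟩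
        | cons d w ih =>
          intro z
          obtain ⟨r, hr⟩ := ih z
          refine ⟨1 / (d + r), ?_⟩
          push_cast
          rw [hr]
          rfl
      unfold lo
      rcases min_choice (phi c 0) (phi c 1) with e | e
      · rw [e]; simpa using hr c 0
      · rw [e]; simpa using hr c 1
    rw [pre_eq_iff (sh_good ha n) hc, ← hn]
    have hcyl := cyl_iff hc (y := gauss^[n] α)
    rw [hcyl]
    constructor
    · rintro ⟨h1, h2⟩
      rcases lt_or_gt_of_ne hne with h | h
      · left; exact ⟨h1, h⟩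
      · right; exact ⟨h1, h, h2⟩
    · rintro (⟨h1, h2⟩ | ⟨h1, h2, h3⟩)
      · exact ⟨h1, h2.trans_le (lo_le_hi c)⟩
      · exact ⟨h1, h3⟩
  have hdisj : Disjoint ((Finset.range N).filter (fun n => gauss^[n] α < lo c))
        ((Finset.range N).filter (fun n => pre (sh (dig α) n) c.length = c)) := by
    rw [Finset.disjoint_left]
    intro n h1 h2
    simp only [Finset.mem_filter] at h1 h2
    have hn : gauss^[n] α = X (sh (dig α) n) := by
      conv_lhs => rw [← hXa]
      exact gauss_iter_X ha n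
    have h3 := (pre_eq_iff (sh_good ha n) hc).1 h2.2
    rw [← hn, cyl_iff hc] at h3
    linarith [h3.1, h1.2]
  rw [hsplit, Finset.card_union_of_disjoint hdisj]
  unfold cntb
  push_cast
  ring

end Pool.Agent.E8helper67.CFN
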