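import Pool.Agent.E8helper67.CFN.Step
import Pool.Agent.E8helper67.CFN.Est
import Pool.Agent.E8helper67.CFN.Freq

/-!
The construction of a continued-fraction normal number which is not distribution normal with
respect to countably many basic sequences.
-/

set_option autoImplicit false

open Filter Set
open scoped Topology

namespace Pool.Agent.E8helper67.CFN

open Pool.Agent.R357.CF Pool.Agent.W811.Stu Pool.Agent.W174.Stu

/-- a sequence of words, each a prefix of the next, defines a sequence -/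
lemma glue {WW : ℕ → List ℕ} (hp : ∀ t, WW t <+: WW (t + 1)) (hl : ∀ t, t ≤ (WW t).length) :
    ∀ t, pre (fun n => (WW (n + 1)).getD n 1) (WW t).length = WW t := by
  have hmono : ∀ t l, WW t <+: WW (t + l) := by
    intro t l
    induction l with
    | zero => exact List.prefix_refl _
    | succ l ih => exact ih.trans (hp _)
  intro t
  apply List.ext_getElem
  · rw [pre_length]
  · intro n h1 h2
    have e1 : (pre (fun n => (WW (n + 1)).getD n 1) (WW t).length)[n] = (WW (n + 1)).getD n 1 := by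
      simp [pre]
    rw [e1]
    have hn : n < (WW (n + 1)).length := by have := hl (n + 1); omega
    rw [List.getD_eq_getElem _ _ hn]
    rcases le_total t (n + 1) with h | h
    · obtain ⟨l, hl'⟩ := Nat.exists_eq_add_of_le h
      obtain ⟨R, hR⟩ := hmono t l
      have : WW (n + 1) = WW t ++ R := by rw [hl', hR]
      simp only [this]
      rw [List.getElem_append_left h2]
    · obtain ⟨l, hl'⟩ := Nat.exists_eq_add_of_le h
      obtain ⟨R, hR⟩ := hmono (n + 1) l
      have : WW t = WW (n + 1) ++ R := by rw [hl', hR]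
      simp only [this]
      rw [List.getElem_append_left hn]

/-- linear bound for the defect of the prefixes of the base sequence -/
lemma base_bound {a : ℕ → ℕ} {c : List ℕ}
    (h : Tendsto (fun N : ℕ => (cntb a c N : ℝ) / N) atTop (𝓝 (mu c))) {ε : ℝ} (hε : 0 < ε) :
    ∃ C, 0 ≤ C ∧ ∀ m, dft (mu c) c (pre a m) ≤ ε * m + C := by
  obtain ⟨N0, hN0⟩ := Metric.tendsto_atTop.1 h ε hε
  set C1 : ℝ := ∑ m ∈ Finset.range N0, dft (mu c) c (pre a m) with hC1
  have hC1' : 0 ≤ C1 := Finset.sum_nonneg fun _ _ => dft_nonneg _ _ _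
  refine ⟨C1 + c.length, by positivity, fun m => ?_⟩
  rcases lt_or_ge m N0 with hm | hm
  · have h1 : dft (mu c) c (pre a m) ≤ C1 :=
      Finset.single_le_sum (f := fun m => dft (mu c) c (pre a m)) (fun _ _ => dft_nonneg _ _ _)
        (Finset.mem_range.2 hm)
    have h2 : (0:ℝ) ≤ ε * m := by positivity
    have h3 : (0:ℝ) ≤ c.length := by positivity
    linarith
  · have h1 := hN0 m hm
    rw [Real.dist_eq] at h1
    obtain ⟨h2, h3⟩ := occ_pre a c m
    have h2' : (occ c (pre a m) : ℝ) ≤ cntb a c m := by exact_mod_cast h2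
    have h3' : (cntb a c m : ℝ) ≤ occ c (pre a m) + c.length := by exact_mod_cast h3
    have h4 : |(cntb a c m : ℝ) - mu c * m| ≤ ε * m := by
      rcases Nat.eq_zero_or_pos m with rfl | hm0
      · simp [cntb]
      · have hm1 : (0:ℝ) < m := by exact_mod_cast hm0
        have e : (cntb a c m : ℝ) - mu c * m = ((cntb a c m : ℝ) / m - mu c) * m := by
          rw [sub_mul, div_mul_cancel₀ _ hm1.ne']
        rw [e, abs_mul, abs_of_pos hm1]
        exact mul_le_mul_of_nonneg_right h1.le hm1.le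
    unfold dft
    rw [pre_length]
    rw [abs_le] at h4 ⊢
    constructor <;> linarith [h4.1, h4.2]

/-- the defect of the prefixes of the glued sequence is small -/
lemma glued_defect {a : ℕ → ℕ} {c : List ℕ} (hc0 : c ≠ []) (hc : Good c)
    (h : Tendsto (fun N : ℕ => (cntb a c N : ℝ) / N) atTop (𝓝 (mu c)))
    (h' : Tendsto (fun N : ℕ => (cntb a c.reverse N : ℝ) / N) atTop (𝓝 (mu c.reverse)))
    {WW : ℕ → List ℕ} (hl : ∀ t, t ≤ (WW t).length) {s : ℕ → ℕ} (hs : ∀ t, pre s (WW t).length = WW t)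
    (hst : ∀ t, ∃ (m : ℕ) (A B1 B2 : List ℕ), (t + 1) * ((WW t).length + 1) ≤ m ∧ A.length ≤ 2 ∧
      B1.length = 4 ∧ B2.length = 1 ∧
      WW (t + 1) = (WW t ++ pre a m ++ A) ++ (B1 ++ ((WW t ++ pre a m ++ A).tail.reverse ++ B2)))
    {δ : ℝ} (hδ : 0 < δ) : ∃ N0 : ℕ, ∀ N : ℕ, N0 ≤ N → dft (mu c) c (pre s N) ≤ δ * N := by
  have h0 := mu_nonneg hc
  have h1 := mu_le_one hc
  set ε := δ / 9 with hεd
  have hε : 0 < ε := by positivity
  obtain ⟨Ca, hCa0, hCa⟩ := base_bound h hε
  obtain ⟨Cb, hCb0, hCb⟩ := base_bound h' hε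
  rw [mu_reverse hc] at hCb
  set C := Ca + Cb with hC
  have ha : ∀ m, dft (mu c) c (pre a m) ≤ ε * m + C := fun m => by linarith [hCa m]
  have ha' : ∀ m, dft (mu c) c.reverse (pre a m) ≤ ε * m + C := fun m => by linarith [hCb m]
  set C2 : ℝ := 3 * C + 13 + 12 * c.length with hC2
  have hC2' : 0 ≤ C2 := by positivity
  -- the key bound
  have key : ∀ t N : ℕ, (WW (t + 1)).length ≤ N → N ≤ (WW (t + 2)).length →
      dft (mu c) c (pre s N) ≤ (3 / (t + 1 : ℝ) + 3 * ε) * N + 2 * C2 := by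
    intro t N hN1 hN2
    have htp : (0:ℝ) < (t:ℝ) + 1 := by positivity
    -- the word `WW (t+1)` itself
    have hw : dft (mu c) c (WW (t + 1)) ≤ (3 / (t + 1 : ℝ) + 3 * ε) * (WW (t + 1)).length + C2 := by
      obtain ⟨m, A, B1, B2, hm, hA, hB1, hB2, hW⟩ := hst t
      have e := est3 h0 h1 hc0 hε.le ha ha' (WW t) A hA m hB1 hB2 (WW (t + 1)).length
      rw [← hW, List.take_length] at e
      refine e.trans ?_
      have hm' : m ≤ (WW (t + 1)).length := by
        rw [hW]; simp only [List.length_append, pre_length]; omega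
      have hm1 : (m:ℝ) ≤ (WW (t + 1)).length := by exact_mod_cast hm'
      have hm2 : ((t:ℝ) + 1) * (((WW t).length : ℝ) + 1) ≤ m := by exact_mod_cast hm
      have hm3 : 3 * ((WW t).length : ℝ) ≤ 3 / (t + 1 : ℝ) * (WW (t + 1)).length := by
        rw [div_mul_eq_mul_div, le_div_iff₀ htp]
        nlinarith
      have hm4 : 3 * ε * m ≤ 3 * ε * (WW (t + 1)).length := by gcongr
      linarith
    obtain ⟨m, A, B1, B2, hm, hA, hB1, hB2, hW⟩ := hst (t + 1)
    have hpre : pre s N = (WW (t + 2)).take N := by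
      rw [← hs (t + 2), take_pre, min_eq_left hN2]
    have hNr : ((WW (t + 1)).length : ℝ) ≤ N := by exact_mod_cast hN1
    have hcf : 0 ≤ 3 / (t + 1 : ℝ) + 3 * ε := by positivity
    have hV : (WW (t + 1) ++ pre a m ++ A).length = (WW (t + 1)).length + m + A.length := by
      simp only [List.length_append, pre_length]
    rcases le_total N (WW (t + 1) ++ pre a m ++ A).length with hc1 | hc1
    · have e1 : pre s N = (WW (t + 1) ++ pre a m ++ A).take N := by
        rw [hpre, hW, List.take_append_of_le_length hc1]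
      rw [e1]
      have e2 := est1 h0 h1 ha (WW (t + 1)) A hA m N
      rw [List.take_of_length_le hN1] at e2
      refine e2.trans ?_
      have e3 : ((min (N - (WW (t + 1)).length) m : ℕ) : ℝ) ≤ N - (WW (t + 1)).length := by
        have : ((min (N - (WW (t + 1)).length) m : ℕ) : ℝ) ≤ ((N - (WW (t + 1)).length : ℕ) : ℝ) := by
          exact_mod_cast min_le_left _ _
        rwa [Nat.cast_sub hN1] at this
      have e4 : ε * ((min (N - (WW (t + 1)).length) m : ℕ) : ℝ) ≤ ε * (N - (WW (t + 1)).length) := by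
        gcongr
      have e5 : (3 / (t + 1 : ℝ) + 3 * ε) * (WW (t + 1)).length + ε * (N - (WW (t + 1)).length) ≤
          (3 / (t + 1 : ℝ) + 3 * ε) * N := by
        have e6 : ε * (N - (WW (t + 1)).length) ≤
            (3 / (t + 1 : ℝ) + 3 * ε) * (N - (WW (t + 1)).length) := by
          apply mul_le_mul_of_nonneg_right _ (by linarith)
          have : 0 ≤ 3 / (t + 1 : ℝ) := by positivity
          linarith
        nlinarith
      have e7 : C + 2 * (c.length : ℝ) + 2 ≤ C2 := by
        rw [hC2]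
        have : (0:ℝ) ≤ c.length := by positivity
        linarith
      linarith
    · have e := est3 h0 h1 hc0 hε.le ha ha' (WW (t + 1)) A hA m hB1 hB2 N
      rw [← hW, ← hpre] at e
      refine e.trans ?_
      have hm' : m ≤ N := by omega
      have hm1 : (m:ℝ) ≤ N := by exact_mod_cast hm'
      have hm2 : (((t + 1 : ℕ) : ℝ) + 1) * (((WW (t + 1)).length : ℝ) + 1) ≤ m := by exact_mod_cast hm
      push_cast at hm2
      have hm3 : 3 * ((WW (t + 1)).length : ℝ) ≤ 3 / (t + 1 : ℝ) * N := by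
        rw [div_mul_eq_mul_div, le_div_iff₀ htp]
        nlinarith
      have hm4 : 3 * ε * m ≤ 3 * ε * N := by gcongr
      linarith
  -- conclusion
  obtain ⟨T0, hT0⟩ : ∃ T0 : ℕ, ∀ t : ℕ, T0 ≤ t → 3 / (t + 1 : ℝ) ≤ δ / 3 := by
    obtain ⟨T0, hT0⟩ := exists_nat_ge (9 / δ)
    refine ⟨T0, fun t ht => ?_⟩
    have htr : (T0:ℝ) ≤ t := by exact_mod_cast ht
    rw [div_le_iff₀ (by positivity)]
    rw [div_le_iff₀ hδ] at hT0
    nlinarith
  obtain ⟨N1, hN1⟩ := exists_nat_ge (6 * C2 / δ)
  refine ⟨max (WW (T0 + 1)).length N1, fun N hN => ?_⟩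
  have hNa : (WW (T0 + 1)).length ≤ N := (le_max_left _ _).trans hN
  have hNb : (N1:ℝ) ≤ N := by exact_mod_cast (le_max_right _ _).trans hN
  set t := Nat.findGreatest (fun t => (WW (t + 1)).length ≤ N) N with ht
  have hT0N : T0 ≤ N := by have := hl (T0 + 1); omega
  have ht1 : (WW (t + 1)).length ≤ N :=
    Nat.findGreatest_spec (P := fun t => (WW (t + 1)).length ≤ N) hT0N hNa
  have ht2 : T0 ≤ t := Nat.le_findGreatest hT0N hNa
  have ht3 : N ≤ (WW (t + 2)).length := by
    by_contra hcon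
    rw [not_le] at hcon
    have h5 := hl (t + 2)
    have h6 : t + 1 ≤ t := Nat.le_findGreatest (P := fun t => (WW (t + 1)).length ≤ N) (by omega) hcon.le
    omega
  have hk := key t N ht1 ht3
  have h7 := hT0 t ht2
  have h8 : 2 * C2 ≤ δ / 3 * N := by
    rw [div_le_iff₀ hδ] at hN1
    nlinarith
  have hN0 : (0:ℝ) ≤ N := by positivity
  have h9 : (3 / (t + 1 : ℝ) + 3 * ε) * N ≤ (δ / 3 + δ / 3) * N := by
    apply mul_le_mul_of_nonneg_right _ hN0
    rw [hεd]; linarith
  linarith

/-- main construction -/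
theorem main {q : ℕ → ℕ → ℕ} (hq : ∀ t n, 2 ≤ q t n) (y : ℕ → ℝ) :
    ∃ s : ℕ → ℕ, (∀ n, 1 ≤ s n) ∧
      (∀ c, c ≠ [] → Good c → Tendsto (fun N : ℕ => (cntb s c N : ℝ) / N) atTop (𝓝 (mu c))) ∧
      (∀ t, X s ≠ y t) ∧
      ∀ t, ∃ J, t ≤ J ∧ 1 ≤ J ∧ Few (q t) (X s) J := by
  obtain ⟨a, ha, hfreq⟩ := exists_base
  have hex : ∀ t : ℕ, ∀ W : List ℕ, Good W → ∃ Wp, Stage a t (q t) (y t) W Wp := fun t W hW =>
    exists_stage ha t (hq t) (y t) hW
  choose! nxt hnxt using hex
  set WW : ℕ → List ℕ := fun t => Nat.rec [] (fun t W => nxt t W) t with hWW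
  have hsucc : ∀ t, WW (t + 1) = nxt t (WW t) := fun t => rfl
  have hgood : ∀ t, Good (WW t) := by
    intro t
    induction t with
    | zero => exact good_nil
    | succ t ih => rw [hsucc]; exact (hnxt t _ ih).1
  have hstage : ∀ t, Stage a t (q t) (y t) (WW t) (WW (t + 1)) := fun t => by
    rw [hsucc]; exact hnxt t _ (hgood t)
  have hp : ∀ t, WW t <+: WW (t + 1) := by
    intro t
    obtain ⟨_, _, _, m, A, B1, B2, _, _, _, _, hW⟩ := hstage t
    rw [hW, List.append_assoc, List.append_assoc]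
    exact List.prefix_append _ _
  have hl : ∀ t, t ≤ (WW t).length := by
    intro t
    induction t with
    | zero => exact Nat.zero_le _
    | succ t ih =>
      obtain ⟨_, _, _, m, A, B1, B2, _, _, h1, _, hW⟩ := hstage t
      rw [hW]
      simp only [List.length_append, h1]
      omega
  set s : ℕ → ℕ := fun n => (WW (n + 1)).getD n 1 with hs
  have hpre : ∀ t, pre s (WW t).length = WW t := glue hp hl
  have hs1 : ∀ n, 1 ≤ s n := by
    intro n
    have hn : n < (WW (n + 1)).length := by have := hl (n + 1); omega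
    have : s n = (WW (n + 1))[n] := by rw [hs]; exact List.getD_eq_getElem _ _ hn
    rw [this]
    exact hgood (n + 1) _ (List.getElem_mem hn)
  have hX : ∀ t, ∃ z ∈ Ioo (0:ℝ) 1, X s = phi (WW (t + 1)) z := by
    intro t
    refine ⟨X (sh s (WW (t + 1)).length), X_mem (sh_good hs1 _), ?_⟩
    have h9 := X_pre hs1 (WW (t + 1)).length
    have h10 : pre s (WW (t + 1)).length = WW (t + 1) := hpre (t + 1)
    rw [h10] at h9
    exact h9
  refine ⟨s, hs1, ?_, ?_, ?_⟩
  · intro c hc0 hc
    have hd := fun (δ : ℝ) (hδ : 0 < δ) => glued_defect hc0 hc (hfreq c hc)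
      (hfreq c.reverse (good_reverse hc)) hl hpre
      (fun t => (hstage t).2.2.2) hδ
    rw [Metric.tendsto_atTop]
    intro ε hε
    obtain ⟨N0, hN0⟩ := hd (ε / 3) (by positivity)
    obtain ⟨N1, hN1⟩ := exists_nat_ge (3 * (c.length : ℝ) / ε)
    refine ⟨max (max N0 N1) 1, fun N hN => ?_⟩
    have hNN : (1:ℝ) ≤ N := by exact_mod_cast (le_max_right _ _).trans hN
    have hN0' := hN0 N ((le_max_left _ _).trans ((le_max_left _ _).trans hN))
    have hN1' : (N1:ℝ) ≤ N := by
      exact_mod_cast (le_max_right _ _).trans ((le_max_left _ _).trans hN)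
    obtain ⟨h2, h3⟩ := occ_pre s c N
    have h2' : (occ c (pre s N) : ℝ) ≤ cntb s c N := by exact_mod_cast h2
    have h3' : (cntb s c N : ℝ) ≤ occ c (pre s N) + c.length := by exact_mod_cast h3
    unfold dft at hN0'
    rw [pre_length, abs_le] at hN0'
    rw [div_le_iff₀ hε] at hN1
    have h4 : (c.length : ℝ) ≤ ε / 3 * N := by nlinarith
    have hNp : (0:ℝ) < N := by linarith
    rw [Real.dist_eq]
    have e : (cntb s c N : ℝ) / N - mu c = ((cntb s c N : ℝ) - mu c * N) / N := by
      rw [sub_div, mul_div_cancel_right₀ _ hNp.ne']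
    rw [e, abs_div, abs_of_pos hNp, div_lt_iff₀ hNp, abs_lt]
    constructor <;> nlinarith [hN0'.1, hN0'.2]
  · intro t
    obtain ⟨z, hz, e⟩ := hX t
    rw [e]
    exact (hstage t).2.1 z hz
  · intro t
    obtain ⟨J, h1, h2, h3⟩ := (hstage t).2.2.1
    obtain ⟨z, hz, e⟩ := hX t
    refine ⟨J, h1, h2, ?_⟩
    rw [e]
    exact h3 z hz

end Pool.Agent.E8helper67.CFN
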