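import Pool.Agent.E8helper67.CFN.Arith

/-!
One stage of the construction.
-/

set_option autoImplicit false

open Filter Set
open scoped Topology

namespace Pool.Agent.E8helper67.CFN

open Pool.Agent.R357.CF

/-- few visits to the second quarter up to time `J` -/
def Few (q : ℕ → ℕ) (x : ℝ) (J : ℕ) : Prop :=
  8 * ((Finset.range J).filter (fun n => 1 / 4 ≤ Int.fract ((BB q n : ℝ) * x) ∧
    Int.fract ((BB q n : ℝ) * x) < 1 / 2)).card ≤ J

lemma phi_inj {U : List ℕ} (hU : Good U) {z z' : ℝ} (hz : z ∈ Icc (0:ℝ) 1) (hz' : z' ∈ Icc (0:ℝ) 1)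
    (h : phi U z = phi U z') : z = z' := by
  have h1 := (phi_abs hU hz hz').1
  rw [h, sub_self, abs_zero] at h1
  have hQ : (0:ℝ) < 4 * (Q U : ℝ) ^ 2 := by
    have : (1:ℝ) ≤ Q U := by exact_mod_cast Q_pos hU
    positivity
  have h2 : |z - z'| ≤ 0 := by
    rw [div_le_iff₀ hQ] at h1
    linarith
  have := abs_nonpos_iff.1 h2
  linarith

lemma BB_pos {q : ℕ → ℕ} (hq : ∀ n, 2 ≤ q n) (n : ℕ) : 1 ≤ BB q n := by
  unfold BB
  exact Finset.prod_pos fun i _ => lt_of_lt_of_le (by norm_num) (hq i)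

lemma BB_mono {q : ℕ → ℕ} (hq : ∀ n, 2 ≤ q n) {m n : ℕ} (h : m ≤ n) : BB q m ≤ BB q n :=
  Nat.le_of_dvd (BB_pos hq n) (BB_dvd q h)

/-- a number close to a fraction whose denominator divides the products -/
lemma few_of_near {q : ℕ → ℕ} (hq : ∀ n, 2 ≤ q n) {j J M : ℕ} (hM : M ∣ BB q j) (hM0 : 1 ≤ M) {N : ℕ} {x : ℝ}
    {K : ℕ} (hK : 4 * BB q J < K) (h : |x - (N : ℝ) / M| ≤ 1 / K) (hJ : 8 * j ≤ J) : Few q x J := by
  unfold Few
  refine le_trans (Nat.mul_le_mul_left 8 ?_) hJ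
  calc _ ≤ (Finset.range j).card := Finset.card_le_card ?_
    _ = j := Finset.card_range j
  intro n hn
  simp only [Finset.mem_filter, Finset.mem_range] at hn ⊢
  obtain ⟨hnJ, h1, h2⟩ := hn
  by_contra hc
  rw [not_lt] at hc
  obtain ⟨D, hD⟩ := hM.trans (BB_dvd q hc)
  have hMR : (0:ℝ) < M := by exact_mod_cast hM0
  have e1 : (BB q n : ℝ) * x = ((D * N : ℤ) : ℝ) + (BB q n : ℝ) * (x - (N : ℝ) / M) := by
    rw [hD]
    push_cast
    field_simp
    ring
  have hK0 : (0:ℝ) < K := by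
    have : 0 < K := by omega
    exact_mod_cast this
  have h3 : |(BB q n : ℝ) * (x - (N : ℝ) / M)| < 1 / 4 := by
    rw [abs_mul, abs_of_nonneg (by positivity)]
    have h4 : (BB q n : ℝ) ≤ BB q J := by exact_mod_cast BB_mono hq hnJ.le
    have h5 : (4:ℝ) * BB q J < K := by exact_mod_cast hK
    calc (BB q n : ℝ) * |x - (N : ℝ) / M| ≤ BB q J * (1 / K) := by gcongr
      _ < 1 / 4 := by
        rw [mul_one_div, div_lt_iff₀ hK0]
        linarith
  rw [abs_lt] at h3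
  rw [e1, Int.fract_intCast_add] at h1 h2
  rcases lt_or_ge ((BB q n : ℝ) * (x - (N : ℝ) / M)) 0 with h4 | h4
  · have e2 : Int.fract ((BB q n : ℝ) * (x - (N : ℝ) / M)) = (BB q n : ℝ) * (x - (N : ℝ) / M) + 1 := by
      rw [Int.fract_eq_iff]
      refine ⟨by linarith, by linarith, -1, by push_cast; ring⟩
    rw [e2] at h2
    linarith
  · have e2 : Int.fract ((BB q n : ℝ) * (x - (N : ℝ) / M)) = (BB q n : ℝ) * (x - (N : ℝ) / M) := by
      rw [Int.fract_eq_self]
      exact ⟨h4, by linarith⟩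
    rw [e2] at h1
    linarith

lemma good_rev {c : List ℕ} (hc : Good c) : Good c.reverse := fun d hd => hc d (List.mem_reverse.1 hd)

/-- the stage -/
def Stage (a : ℕ → ℕ) (t : ℕ) (q : ℕ → ℕ) (y : ℝ) (W Wp : List ℕ) : Prop :=
  Good Wp ∧ (∀ z ∈ Ioo (0:ℝ) 1, phi Wp z ≠ y) ∧
    (∃ J, t ≤ J ∧ 1 ≤ J ∧ ∀ z ∈ Ioo (0:ℝ) 1, Few q (phi Wp z) J) ∧
    ∃ (m : ℕ) (A B1 B2 : List ℕ), (t + 1) * (W.length + 1) ≤ m ∧ A.length ≤ 2 ∧ B1.length = 4 ∧
      B2.length = 1 ∧
      Wp = (W ++ pre a m ++ A) ++ (B1 ++ ((W ++ pre a m ++ A).tail.reverse ++ B2))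

lemma exists_stage {a : ℕ → ℕ} (ha : ∀ n, 1 ≤ a n) (t : ℕ) {q : ℕ → ℕ} (hq : ∀ n, 2 ≤ q n) (y : ℝ)
    {W : List ℕ} (hW : Good W) : ∃ Wp, Stage a t q y W Wp := by
  set m := (t + 1) * (W.length + 1) with hm
  have hm1 : 1 ≤ m := Nat.mul_pos (by omega) (by omega)
  set w := W ++ pre a m with hw
  have hwg : Good w := hW.append (pre_good ha m)
  have hw0 : w ≠ [] := by
    intro h
    have := congrArg List.length h
    rw [hw, List.length_append, pre_length, List.length_nil] at this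
    omega
  obtain ⟨A, e, hA, hAl, he, hodd, j, k, hk, hdvd⟩ := arith hq hwg hw0
  obtain ⟨v, mid, hv⟩ : ∃ v mid, w ++ A = v :: mid := by
    cases hwa : w ++ A with
    | nil => exact absurd (List.append_eq_nil_iff.1 hwa).1 hw0
    | cons v mid => exact ⟨v, mid, rfl⟩
  have hVg : Good (v :: mid) := by rw [← hv]; exact hwg.append hA
  rw [hv] at hodd hdvd
  set P := Pn (v :: mid ++ [e]) with hP
  set QV := Q (v :: mid ++ [e]) with hQV
  set M := 1 + P * QV * k with hM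
  set U := v :: mid ++ [e] ++ [k - 1, 1, e - 1] ++ mid.reverse with hU
  have hUg : Good U := by
    refine ((hVg.append (good_single (by omega))).append ?_).append (good_rev hVg.cons.2)
    intro d hd
    simp only [List.mem_cons, List.not_mem_nil, or_false] at hd
    rcases hd with rfl | rfl | rfl <;> omega
  have hval : phi U 0 = ((P ^ 2 * k : ℕ) : ℝ) / M := by
    rw [hU, fold_phi hVg he hodd hk, hM]
    push_cast
    rfl
  set J := 8 * (j + 1) + t with hJ
  -- choice of the last digit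
  obtain ⟨K, hK1, hK2⟩ : ∃ K, 4 * BB q J < K ∧ ∀ z ∈ Ioo (0:ℝ) 1, phi (U ++ [K]) z ≠ y := by
    by_cases h : ∀ z ∈ Ioo (0:ℝ) 1, phi (U ++ [4 * BB q J + 1]) z ≠ y
    · exact ⟨_, by omega, h⟩
    · push Not at h
      obtain ⟨z0, hz0, h0⟩ := h
      refine ⟨4 * BB q J + 2, by omega, fun z hz h1 => ?_⟩
      rw [← h0, phi_append U, phi_append U] at h1
      have i1 : phi [4 * BB q J + 2] z ∈ Icc (0:ℝ) 1 :=
        phi_mem_Icc (good_single (by omega)) (Ioo_subset_Icc_self hz)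
      have i2 : phi [4 * BB q J + 1] z0 ∈ Icc (0:ℝ) 1 :=
        phi_mem_Icc (good_single (by omega)) (Ioo_subset_Icc_self hz0)
      have h2 := phi_inj hUg i1 i2 h1
      simp only [phi] at h2
      push_cast at h2
      have p1 : (0:ℝ) < 4 * BB q J + 2 + z := by have := hz.1; positivity
      have p2 : (0:ℝ) < 4 * BB q J + 1 + z0 := by have := hz0.1; positivity
      rw [div_eq_div_iff p1.ne' p2.ne'] at h2
      linarith [hz.1, hz0.2]
  have hK0 : 1 ≤ K := by omega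
  refine ⟨U ++ [K], hUg.append (good_single hK0), hK2, ⟨J, by omega, by omega, ?_⟩,
    m, A, [e, k - 1, 1, e - 1], [K], le_rfl, hAl, by simp, by simp, ?_⟩
  · intro z hz
    have h1 := near hUg hK0 hz
    rw [hval] at h1
    exact few_of_near hq hdvd (by omega) hK1 h1 (by omega)
  · rw [← hw, hv, hU]
    simp

end Pool.Agent.E8helper67.CFN
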